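import Mathlib

/-!
# Circuits with AND, OR and MOD gates of unbounded fan-in
-/

set_option autoImplicit false

namespace Pool.Agent.Helper10.ModMaj

/-- The kinds of gates. -/
inductive Kind
  | and
  | or
  | mod

/-- A circuit with `n` Boolean inputs and `s` gates. Gate `g` reads the literal `x i = b` with
multiplicity `lit g i b`, and the value of gate `h` (if `b = true`) or the negation of that value
(if `b = false`) with multiplicity `wire g h b`. Gates read earlier gates only. There is no bound
on the number of wires or on the depth. -/
structure Circuit (n s : ℕ) where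
  kind : Fin s → Kind
  lit : Fin s → Fin n → Bool → ℕ
  wire : Fin s → Fin s → Bool → ℕ
  earlier : ∀ g h b, wire g h b ≠ 0 → h < g

variable {n s : ℕ}

/-- The number of true inputs of gate `g` (with multiplicity), when the variables have the values
`x` and the gates have the values `v`. -/
def Circuit.trues (C : Circuit n s) (g : Fin s) (x : Fin n → Bool) (v : Fin s → Bool) : ℕ :=
  ∑ i, C.lit g i (x i) + ∑ h, C.wire g h (v h)

/-- The number of false inputs of gate `g` (with multiplicity). -/
def Circuit.falses (C : Circuit n s) (g : Fin s) (x : Fin n → Bool) (v : Fin s → Bool) : ℕ :=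
  ∑ i, C.lit g i (!x i) + ∑ h, C.wire g h (!v h)

/-- Gate `g` outputs `true`: an AND gate if no input is false, an OR gate if some input is true, a
MOD gate if the number of true inputs is not divisible by `m`. -/
def Circuit.Fires (C : Circuit n s) (m : ℕ) (g : Fin s) (x : Fin n → Bool)
    (v : Fin s → Bool) : Prop :=
  match C.kind g with
  | Kind.and => C.falses g x v = 0
  | Kind.or => C.trues g x v ≠ 0
  | Kind.mod => ¬ m ∣ C.trues g x v

/-- `v` is the vector of the values of the gates at the input `x`. -/
def Circuit.IsRun (C : Circuit n s) (m : ℕ) (x : Fin n → Bool) (v : Fin s → Bool) : Prop :=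
  ∀ g, v g = true ↔ C.Fires m g x v

/-- Gate `g` reads gate `h`. -/
def Circuit.Reads (C : Circuit n s) (g h : Fin s) : Prop := ∃ b, C.wire g h b ≠ 0

/-- The gates on which gate `g` depends, `g` itself included. -/
def Circuit.below (C : Circuit n s) (g : Fin s) : Set (Fin s) :=
  {h | Relation.ReflTransGen C.Reads g h}

/-- The number of ones of `x`. -/
def ones (x : Fin n → Bool) : ℕ := (Finset.univ.filter fun i => x i = true).card

/-- The value in the abelian group `Γ` of the weighted sum of a constant, the variables and the
gates. -/
def groupSum {Γ : Type} [AddCommGroup Γ] (c : Γ) (α : Fin n → Γ) (γ : Fin s → Γ)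
    (x : Fin n → Bool) (v : Fin s → Bool) : Γ :=
  c + ∑ i, (if x i then α i else 0) + ∑ g, (if v g then γ g else 0)

end Pool.Agent.Helper10.ModMaj
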