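import Pool.Agent.Helper10.ModMaj.Span

/-!
# The value of a gate that depends on few gates
-/

set_option autoImplicit false

namespace Pool.Agent.Helper10.ModMaj

open Finset

variable {n s : ℕ}

lemma fires_congr (C : Circuit n s) (m : ℕ) (g : Fin s) (x : Fin n → Bool)
    {u v : Fin s → Bool} (h : ∀ k, C.Reads g k → u k = v k) :
    C.Fires m g x u ↔ C.Fires m g x v := by
  have h1 : ∑ k, C.wire g k (u k) = ∑ k, C.wire g k (v k) := by
    refine Finset.sum_congr rfl fun k _ => ?_
    by_cases hk : C.Reads g k
    · rw [h k hk]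
    · have : ∀ b, C.wire g k b = 0 := fun b => by
        by_contra hb; exact hk ⟨b, hb⟩
      rw [this, this]
  have h2 : ∑ k, C.wire g k (!u k) = ∑ k, C.wire g k (!v k) := by
    refine Finset.sum_congr rfl fun k _ => ?_
    by_cases hk : C.Reads g k
    · rw [h k hk]
    · have : ∀ b, C.wire g k b = 0 := fun b => by
        by_contra hb; exact hk ⟨b, hb⟩
      rw [this, this]
  unfold Circuit.Fires Circuit.falses Circuit.trues
  rw [h1, h2]

/-- The value of a gate is a combination of products of basic functions of the gates below. -/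
lemma gate_combination (C : Circuit n s) (m : ℕ) (hm : 2 ≤ m) [NeZero m]
    (v : (Fin n → Bool) → Fin s → Bool) (hv : ∀ x, C.IsRun m x (v x)) (g : Fin s)
    (D : Finset (Fin s)) (hgD : g ∈ D) (hD : ∀ a ∈ D, ∀ b, C.Reads a b → b ∈ D) :
    ∃ c : (D → ZMod m) → ℂ, ∀ x : Fin n → Bool,
      (if v x g then (1 : ℂ) else 0) =
        ∑ κ : D → ZMod m, c κ * ∏ h : D, base C m h.1 (κ h) x := by
  classical
  -- transcripts
  let U : Finset (Fin s → Bool) := Finset.univ.filter fun u => ∀ h, h ∉ D → u h = false
  have hgate := fun (h : Fin s) (u : Fin s → Bool) => indicator_gate C m hm h u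
  choose c hc using hgate
  have hsum : ∀ x : Fin n → Bool, (if v x g then (1 : ℂ) else 0) =
      ∑ u ∈ U, (if u g then (1 : ℂ) else 0) *
        ∏ h : D, (if (u h.1 = true ↔ C.Fires m h.1 x u) then (1 : ℂ) else 0) := by
    intro x
    let u₀ : Fin s → Bool := fun h => if h ∈ D then v x h else false
    have hu₀ : u₀ ∈ U := by
      simp only [U, Finset.mem_filter, Finset.mem_univ, true_and]
      intro h hh; simp [u₀, hh]
    rw [Finset.sum_eq_single_of_mem u₀ hu₀]
    · have h1 : ∀ h : D, (u₀ h.1 = true ↔ C.Fires m h.1 x u₀) := by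
        intro h
        have h2 : u₀ h.1 = v x h.1 := by simp [u₀, h.2]
        rw [h2, hv x h.1]
        refine fires_congr C m h.1 x fun k hk => ?_
        simp [u₀, hD h.1 h.2 k hk]
      have h3 : u₀ g = v x g := by simp [u₀, hgD]
      rw [h3, Finset.prod_eq_one fun h _ => if_pos (h1 h), mul_one]
    · intro u hu hne
      have : ∃ h : D, ¬ (u h.1 = true ↔ C.Fires m h.1 x u) := by
        by_contra hall
        push Not at hall
        apply hne
        -- by strong induction `u = v x` on `D`
        have hind : ∀ h : Fin s, h ∈ D → u h = v x h := by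
          intro h
          induction h using WellFoundedLT.induction with
          | ind h ih =>
            intro hhD
            have h1 := hall ⟨h, hhD⟩
            have h2 := fires_congr C m h x (u := u) (v := v x) fun k hk =>
              ih k (by obtain ⟨b, hb⟩ := hk; exact C.earlier h k b hb) (hD h hhD k hk)
            have h3 : (u h = true ↔ v x h = true) := h1.trans (h2.trans (hv x h).symm)
            exact Bool.eq_iff_iff.2 h3
        funext h
        by_cases hh : h ∈ D
        · simp [u₀, hh, hind h hh]
        · simp only [U, Finset.mem_filter, Finset.mem_univ, true_and] at hu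
          simp [u₀, hh, hu h hh]
      obtain ⟨h, hh⟩ := this
      rw [Finset.prod_eq_zero (Finset.mem_univ h) (if_neg hh), mul_zero]
  refine ⟨fun κ => ∑ u ∈ U, (if u g then (1 : ℂ) else 0) * ∏ h : D, c h.1 u (κ h),
    fun x => ?_⟩
  rw [hsum x]
  have hexp : ∀ u : Fin s → Bool,
      ∏ h : D, (if (u h.1 = true ↔ C.Fires m h.1 x u) then (1 : ℂ) else 0) =
        ∑ κ : D → ZMod m, (∏ h : D, c h.1 u (κ h)) * ∏ h : D, base C m h.1 (κ h) x := by
    intro u
    rw [Finset.prod_congr rfl fun h _ => hc h.1 u x]
    have h2 := Finset.prod_univ_sum (fun _ : D => (Finset.univ : Finset (ZMod m)))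
      (fun h j => c h.1 u j * base C m h.1 j x)
    rw [Fintype.piFinset_univ] at h2
    rw [h2]
    exact Finset.sum_congr rfl fun κ _ => Finset.prod_mul_distrib
  rw [Finset.sum_congr rfl fun u _ => by rw [hexp u]]
  simp only [Finset.mul_sum, Finset.sum_mul]
  rw [Finset.sum_comm]
  refine Finset.sum_congr rfl fun κ _ => Finset.sum_congr rfl fun u _ => by ring

end Pool.Agent.Helper10.ModMaj
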