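import Pool.Agent.Helper10.ModMaj.Gate

/-!
# The lower bound
-/

set_option autoImplicit false

namespace Pool.Agent.Helper10.ModMaj

open Finset

variable {n s : ℕ}

/-- The top point can be given every weight between `|R|` and `n - |R|`. -/
lemma exists_top_weight {m : ℕ} (top : Bool) (R : Finset (Fin n)) (σ : Fin n → Ty m) (w : ℕ)
    (h1 : R.card ≤ w) (h2 : w + R.card ≤ n) :
    ∃ y : Fin n → Bool, ones (topPt top R σ y) = w := by
  classical
  let P := R.filter fun i => topVal top (σ i) = true
  have hP : P.card ≤ R.card := Finset.card_le_card (Finset.filter_subset _ _)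
  have hRc : (Finset.univ \ R : Finset (Fin n)).card = n - R.card := by
    rw [Finset.card_sdiff_of_subset (Finset.subset_univ _), Finset.card_univ, Fintype.card_fin]
  obtain ⟨Y, hY, hYc⟩ := Finset.exists_subset_card_eq
    (s := (Finset.univ \ R : Finset (Fin n))) (n := w - P.card) (by omega)
  refine ⟨fun i => decide (i ∈ Y), ?_⟩
  have : (Finset.univ.filter fun i => topPt top R σ (fun i => decide (i ∈ Y)) i = true) =
      P ∪ Y := by
    ext i
    simp only [Finset.mem_filter, Finset.mem_univ, true_and, Finset.mem_union, topPt, P]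
    by_cases hi : i ∈ R
    · have : i ∉ Y := fun h => (Finset.mem_sdiff.1 (hY h)).2 hi
      simp [hi, this]
    · simp [hi]
  rw [ones, this, Finset.card_union_of_disjoint, hYc]
  · omega
  · rw [Finset.disjoint_left]
    intro i hi hi'
    exact (Finset.mem_sdiff.1 (hY hi')).2 (Finset.mem_filter.1 hi).1

lemma ones_lt_of_top_true {x z : Fin n → Bool} (h : ∀ i, x i = z i ∨ (x i = false ∧ z i = true))
    (hne : x ≠ z) : ones x < ones z := by
  apply Finset.card_lt_card
  rw [Finset.ssubset_iff_subset_ne]
  constructor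
  · intro i
    simp only [Finset.mem_filter, Finset.mem_univ, true_and]
    intro hx
    rcases h i with h1 | h1
    · rw [← h1, hx]
    · exact h1.2
  · intro heq
    apply hne
    funext i
    rcases h i with h1 | h1
    · exact h1
    · have : i ∈ Finset.univ.filter fun i => x i = true := by
        rw [heq]; simp [h1.2]
      simp [h1.1] at this

lemma isInt_of_isIntegral {a : ℚ} (h : IsIntegral ℤ (a : ℂ)) : ∃ N : ℤ, (N : ℚ) = a := by
  have h1 : IsIntegral ℤ a := by
    have := (isIntegral_algebraMap_iff (R := ℤ) (A := ℚ) (B := ℂ)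
      (algebraMap ℚ ℂ).injective).1 (by simpa using h)
    exact this
  obtain ⟨N, hN⟩ := IsIntegrallyClosed.isIntegral_iff.1 h1
  exact ⟨N, by simpa using hN⟩

/-- The main lemma: a nonzero value of the group sum cannot be isolated. -/
lemma core (m q r : ℕ) (hm : 2 ≤ m) (C : Circuit n s)
    (hq : ∀ g, (C.below g).ncard ≤ q)
    (v : (Fin n → Bool) → Fin s → Bool) (hv : ∀ x, C.IsRun m x (v x))
    {Γ : Type} [AddCommGroup Γ] (c : Γ) (α : Fin n → Γ) (γ : Fin s → Γ)
    (top : Bool) (w : ℕ) (h1 : r ≤ w) (h2 : w + r ≤ n)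
    (hcard : (1 + n + s * m ^ q) * (m + 1) ^ r < (m + 2) ^ r)
    (hzero : ∀ x z : Fin n → Bool, ones z = w → x ≠ z →
      (∀ i, x i = z i ∨ (x i = !top ∧ z i = top)) → groupSum c α γ x (v x) = 0) :
    ∃ z : Fin n → Bool, ones z = w ∧ groupSum c α γ z (v z) = 0 := by
  classical
  haveI : NeZero m := ⟨by omega⟩
  obtain ⟨R, -, hR⟩ := Finset.exists_subset_card_eq
    (s := (Finset.univ : Finset (Fin n))) (n := r) (by simp; omega)
  let D : Fin s → Finset (Fin s) := fun g => (C.below g).toFinset
  have hDcard : ∀ g, (D g).card ≤ q := fun g => by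
    have := hq g
    rwa [Set.ncard_eq_toFinset_card'] at this
  have hgD : ∀ g, g ∈ D g := fun g => by
    simp only [D, Set.mem_toFinset]; exact Relation.ReflTransGen.refl
  have hD : ∀ g, ∀ a ∈ D g, ∀ b, C.Reads a b → b ∈ D g := fun g a ha b hab => by
    simp only [D, Set.mem_toFinset] at ha ⊢
    exact Relation.ReflTransGen.tail ha hab
  -- the functions in use
  let ι := Option (Fin n) ⊕ (Σ g : Fin s, (D g → ZMod m))
  let f : ι → (Fin n → Bool) → ℂ := fun a => match a with
    | Sum.inl none => fun _ => 1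
    | Sum.inl (some i) => fun x => if x i then 1 else 0
    | Sum.inr ⟨g, κ⟩ => fun x => ∏ h : D g, base C m h.1 (κ h) x
  have hf : ∀ a, TermLike m (f a) := by
    rintro ((_ | i) | ⟨g, κ⟩)
    · exact termLike_one m
    · have h3 := termLike_falses (n := n) m fun i' b => if i' = i ∧ b = false then 1 else 0
      convert h3 using 2 with x
      simp only [f]
      by_cases hx : x i = true
      · rw [if_pos hx, if_pos]
        refine Finset.sum_eq_zero fun j _ => ?_
        rw [if_neg]
        rintro ⟨rfl, h4⟩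
        rw [hx] at h4; exact absurd h4 (by decide)
      · rw [if_neg hx, if_neg]
        intro h4
        rw [Finset.sum_eq_zero_iff] at h4
        have := h4 i (Finset.mem_univ i)
        rw [if_pos ⟨rfl, by simpa using hx⟩] at this
        exact absurd this (by decide)
    · exact TermLike.prod Finset.univ fun h _ => termLike_base C m h.1 (κ h)
  choose e t ht using hf
  have hι : Fintype.card ι ≤ 1 + n + s * m ^ q := by
    rw [Fintype.card_sum, Fintype.card_option, Fintype.card_fin, Fintype.card_sigma]
    have : ∑ g : Fin s, Fintype.card (D g → ZMod m) ≤ ∑ _g : Fin s, m ^ q := by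
      refine Finset.sum_le_sum fun g _ => ?_
      rw [Fintype.card_fun, ZMod.card, Fintype.card_coe]
      exact Nat.pow_le_pow_right (by omega) (hDcard g)
    rw [Finset.sum_const, Finset.card_univ, Fintype.card_fin, smul_eq_mul] at this
    omega
  obtain ⟨σ, hσ⟩ := exists_pattern (m := m) t R (by
    rw [hR]
    exact lt_of_le_of_lt (Nat.mul_le_mul_right _ hι) hcard)
  obtain ⟨y, hy⟩ := exists_top_weight top R σ w (hR ▸ h1) (hR ▸ h2)
  set z := topPt top R σ y with hz
  set V := W m top R σ y with hV
  have hkill : ∀ a, ∑ x : Fin n → Bool, V x * f a x = 0 := by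
    intro a
    have h3 := sum_W_mul top R σ y (t a) (hσ a)
    have : ∀ x, V x * f a x = e a * (W m top R σ y x * termVal m (t a) x) := by
      intro x; rw [ht a x]; ring
    rw [Finset.sum_congr rfl fun x _ => this x, ← Finset.mul_sum, h3, mul_zero]
  refine ⟨z, hy, ?_⟩
  by_contra hne
  obtain ⟨ψ, hψ⟩ := CharacterModule.exists_character_apply_ne_zero_of_ne_zero hne
  -- rational lifts
  have hlift : ∀ a : Γ, ∃ b : ℚ, (b : AddCircle (1 : ℚ)) = ψ a := fun a =>
    QuotientAddGroup.mk_surjective (ψ a)
  choose ℓ hℓ using hlift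
  let S : (Fin n → Bool) → ℚ := fun x =>
    ℓ c + ∑ i, (if x i then ℓ (α i) else 0) + ∑ g, (if v x g then ℓ (γ g) else 0)
  have hS : ∀ x, ((S x : ℚ) : AddCircle (1 : ℚ)) = ψ (groupSum c α γ x (v x)) := by
    intro x
    simp only [S, groupSum, AddCircle.coe_add, map_add, map_sum]
    congr 1
    · congr 1
      · exact hℓ c
      · rw [← QuotientAddGroup.mk'_apply, map_sum]
        refine Finset.sum_congr rfl fun i _ => ?_
        split_ifs
        · exact hℓ _
        · simp
    · rw [← QuotientAddGroup.mk'_apply, map_sum]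
      refine Finset.sum_congr rfl fun i _ => ?_
      split_ifs
      · exact hℓ _
      · simp
  have hint : ∀ x, groupSum c α γ x (v x) = 0 → ∃ N : ℤ, (N : ℚ) = S x := by
    intro x hx
    have h3 := hS x
    rw [hx, map_zero, AddCircle.coe_eq_zero_iff] at h3
    obtain ⟨N, hN⟩ := h3
    exact ⟨N, by simpa using hN⟩
  -- the identity
  have hid : ∑ x : Fin n → Bool, V x * (S x : ℂ) = 0 := by
    have hgate : ∀ g, ∑ x : Fin n → Bool, V x * (if v x g then (1 : ℂ) else 0) = 0 := by
      intro g
      obtain ⟨d, hd⟩ := gate_combination C m hm v hv g (D g) (hgD g) (hD g)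
      have h3 : ∀ x, V x * (if v x g then (1 : ℂ) else 0) =
          ∑ κ : D g → ZMod m, d κ * (V x * f (Sum.inr ⟨g, κ⟩) x) := by
        intro x
        rw [hd x, Finset.mul_sum]
        exact Finset.sum_congr rfl fun κ _ => by simp only [f]; ring
      rw [Finset.sum_congr rfl fun x _ => h3 x, Finset.sum_comm]
      refine Finset.sum_eq_zero fun κ _ => ?_
      rw [← Finset.mul_sum]
      exact mul_eq_zero_of_right _ (hkill (Sum.inr ⟨g, κ⟩))
    have hcast : ∀ x, (S x : ℂ) = (ℓ c : ℂ) * f (Sum.inl none) x +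
        ∑ i, (ℓ (α i) : ℂ) * f (Sum.inl (some i)) x +
        ∑ g, (ℓ (γ g) : ℂ) * (if v x g then (1 : ℂ) else 0) := by
      intro x
      simp only [S, f, Rat.cast_add, Rat.cast_sum, mul_one, mul_ite, mul_zero]
      congr 1
      · congr 1
        exact Finset.sum_congr rfl fun i _ => by split_ifs <;> simp
      · exact Finset.sum_congr rfl fun i _ => by split_ifs <;> simp
    rw [Finset.sum_congr rfl fun x _ => by rw [hcast x]]
    simp only [mul_add, Finset.sum_add_distrib, Finset.mul_sum]
    have h3 : ∑ x : Fin n → Bool, V x * ((ℓ c : ℂ) * f (Sum.inl none) x) = 0 := by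
      rw [Finset.sum_congr rfl fun x _ => mul_left_comm (V x) (ℓ c : ℂ) (f (Sum.inl none) x),
        ← Finset.mul_sum]
      exact mul_eq_zero_of_right _ (hkill (Sum.inl none))
    have h4 : ∑ x : Fin n → Bool, ∑ i, V x * ((ℓ (α i) : ℂ) * f (Sum.inl (some i)) x) = 0 := by
      rw [Finset.sum_comm]
      refine Finset.sum_eq_zero fun i _ => ?_
      rw [Finset.sum_congr rfl fun x _ =>
        mul_left_comm (V x) (ℓ (α i) : ℂ) (f (Sum.inl (some i)) x), ← Finset.mul_sum]
      exact mul_eq_zero_of_right _ (hkill (Sum.inl (some i)))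
    have h5 : ∑ x : Fin n → Bool, ∑ g, V x * ((ℓ (γ g) : ℂ) *
        (if v x g then (1 : ℂ) else 0)) = 0 := by
      rw [Finset.sum_comm]
      refine Finset.sum_eq_zero fun g _ => ?_
      rw [Finset.sum_congr rfl fun x _ =>
        mul_left_comm (V x) (ℓ (γ g) : ℂ) (if v x g then (1 : ℂ) else 0), ← Finset.mul_sum,
        hgate, mul_zero]
    rw [h3, h4, h5, add_zero, add_zero]
  -- integrality
  have hSz : IsIntegral ℤ (S z : ℂ) := by
    rw [← Finset.add_sum_erase _ _ (Finset.mem_univ z), hV, hz, W_top, ← hz, ← hV, one_mul,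
      add_eq_zero_iff_eq_neg] at hid
    rw [hid]
    refine (IsIntegral.sum _ fun x hx => ?_).neg
    by_cases hVx : V x = 0
    · rw [hVx, zero_mul]; exact isIntegral_zero
    · have hx' : x ≠ z := (Finset.mem_erase.1 hx).1
      have h3 := W_ne_zero top R σ y x hVx
      obtain ⟨N, hN⟩ := hint x (hzero x z hy hx' fun i => h3 i)
      refine (isIntegral_W top R σ y x).mul ?_
      rw [← hN]
      have : ((N : ℚ) : ℂ) = algebraMap ℤ ℂ N := by simp
      rw [this]
      exact isIntegral_algebraMap
  obtain ⟨N, hN⟩ := isInt_of_isIntegral hSz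
  apply hψ
  rw [← hS z, AddCircle.coe_eq_zero_iff]
  exact ⟨N, by simpa using hN⟩

/-- **Main theorem.** -/
theorem lower_bound (m n s q k r : ℕ) (hm : 2 ≤ m) (hr : r < k) (hrn : r + k ≤ n)
    (C : Circuit n s) (hq : ∀ g, (C.below g).ncard ≤ q)
    (v : (Fin n → Bool) → Fin s → Bool) (hv : ∀ x, C.IsRun m x (v x))
    {Γ : Type} [AddCommGroup Γ] (c : Γ) (α : Fin n → Γ) (γ : Fin s → Γ)
    (h : (∀ x, k ≤ ones x ↔ groupSum c α γ x (v x) ≠ 0) ∨
      (∀ x, k ≤ ones x ↔ groupSum c α γ x (v x) = 0)) :
    (m + 2) ^ r ≤ (1 + n + s * m ^ q) * (m + 1) ^ r := by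
  by_contra hcon
  push Not at hcon
  rcases h with h | h
  · obtain ⟨z, hz, hz0⟩ := core m q r hm C hq v hv c α γ true k (by omega) (by omega) hcon
      (by
        intro x z hz hne hxz
        have h1 := ones_lt_of_top_true (x := x) (z := z) (by simpa using hxz) hne
        by_contra h2
        have := (h x).2 h2
        omega)
    exact (h z).1 (by omega) hz0
  · obtain ⟨z, hz, hz0⟩ := core m q r hm C hq v hv c α γ false (k - 1) (by omega) (by omega)
      hcon (by
        intro x z hz hne hxz
        have h1 := ones_lt_of_top_true (x := z) (z := x) (by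
          intro i
          rcases hxz i with h2 | h2
          · exact Or.inl h2.symm
          · exact Or.inr ⟨h2.2, by simpa using h2.1⟩) (Ne.symm hne)
        exact (h x).1 (by omega))
    have := (h z).2 hz0
    omega

end Pool.Agent.Helper10.ModMaj
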