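import Mathlib

/-!
# Terms: products of literals and of characters of order `m`, and how to kill them
-/

set_option autoImplicit false

namespace Pool.Agent.Helper10.ModMaj

open Finset

/-- The type of one coordinate of a term: a literal `x = b`, or a power of a character. -/
abbrev Ty (m : ℕ) := Bool ⊕ ZMod m

/-- The primitive `m`-th root of unity we use. -/
noncomputable def ζ (m : ℕ) : ℂ := Complex.exp (2 * Real.pi * Complex.I / m)

lemma ζ_prim (m : ℕ) [NeZero m] : IsPrimitiveRoot (ζ m) m :=
  Complex.isPrimitiveRoot_exp m (NeZero.ne m)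

/-- The value of a coordinate. -/
noncomputable def tyVal (m : ℕ) : Ty m → Bool → ℂ
  | Sum.inl b, x => if x = b then 1 else 0
  | Sum.inr j, x => if x then ζ m ^ j.val else 1

/-- The value of a term. -/
noncomputable def termVal {n : ℕ} (m : ℕ) (t : Fin n → Ty m) (x : Fin n → Bool) : ℂ :=
  ∏ i, tyVal m (t i) (x i)

/-- Every finite family of terms that is small compared with `(1 + 1/(m+1))^|R|` is killed by a
pattern on the coordinates in `R`. -/
lemma exists_pattern {n m : ℕ} [NeZero m] {ι : Type*} [Fintype ι] (t : ι → Fin n → Ty m)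
    (R : Finset (Fin n))
    (h : Fintype.card ι * (m + 1) ^ R.card < (m + 2) ^ R.card) :
    ∃ σ : Fin n → Ty m, ∀ a, ∃ i ∈ R, t a i = σ i := by
  classical
  by_contra hcon
  push Not at hcon
  -- patterns on `R`
  have hcover : (Finset.univ : Finset (R → Ty m)) ⊆
      Finset.univ.biUnion fun a : ι =>
        Fintype.piFinset fun i : R => Finset.univ.erase (t a i) := by
    intro σ _
    obtain ⟨a, ha⟩ := hcon fun i => if hi : i ∈ R then σ ⟨i, hi⟩ else Sum.inl true
    refine Finset.mem_biUnion.2 ⟨a, Finset.mem_univ _, ?_⟩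
    rw [Fintype.mem_piFinset]
    intro i
    rw [Finset.mem_erase]
    refine ⟨?_, Finset.mem_univ _⟩
    have := ha i.1 i.2
    rw [dif_pos i.2] at this
    exact fun h => this h.symm
  have h1 := (Finset.card_le_card hcover).trans Finset.card_biUnion_le
  have hty : Fintype.card (Ty m) = m + 2 := by
    rw [Fintype.card_sum, Fintype.card_bool, ZMod.card, add_comm]
  have h2 : (Finset.univ : Finset (R → Ty m)).card = (m + 2) ^ R.card := by
    rw [Finset.card_univ, Fintype.card_fun, hty, Fintype.card_coe]
  have h3 : ∀ a : ι, (Fintype.piFinset fun i : R =>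
      (Finset.univ : Finset (Ty m)).erase (t a i)).card = (m + 1) ^ R.card := by
    intro a
    rw [Fintype.card_piFinset]
    have : ∀ i : R, ((Finset.univ : Finset (Ty m)).erase (t a i)).card = m + 1 := by
      intro i
      rw [Finset.card_erase_of_mem (Finset.mem_univ _), Finset.card_univ, hty]
      omega
    rw [Finset.prod_congr rfl fun i _ => this i, Finset.prod_const, Finset.card_univ,
      Fintype.card_coe]
  rw [h2, Finset.sum_congr rfl fun a _ => h3 a, Finset.sum_const, Finset.card_univ,
    smul_eq_mul] at h1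
  omega

/-- The weights belonging to a coordinate of a pattern: on a literal the coordinate is fixed so
that the literal is false; on a character both values are used, `top` with weight `1`. -/
noncomputable def wt (m : ℕ) (top : Bool) : Ty m → Bool → ℂ
  | Sum.inl b, x => if x = b then 0 else 1
  | Sum.inr j, x => if x = top then 1 else
      -(tyVal m (Sum.inr j) top * (tyVal m (Sum.inr j) (!top))⁻¹)

/-- The weight used for a coordinate that is fixed. -/
noncomputable def fixWt (y : Bool) (x : Bool) : ℂ := if x = y then 1 else 0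

/-- The top value of a pattern coordinate. -/
def topVal {m : ℕ} (top : Bool) : Ty m → Bool
  | Sum.inl b => !b
  | Sum.inr _ => top

lemma sum_wt_mul (m : ℕ) [NeZero m] (top : Bool) (τ : Ty m) :
    ∑ x : Bool, wt m top τ x * tyVal m τ x = 0 := by
  have hz : ζ m ≠ 0 := (ζ_prim m).ne_zero (NeZero.ne m)
  rcases τ with b | j
  · cases b <;> simp [wt, tyVal]
  · have hj : ζ m ^ j.val ≠ 0 := pow_ne_zero _ hz
    cases top <;> simp [wt, tyVal, hj]

lemma wt_top (m : ℕ) (top : Bool) (τ : Ty m) : wt m top τ (topVal top τ) = 1 := by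
  rcases τ with b | j
  · cases b <;> simp [wt, topVal]
  · simp [wt, topVal]

lemma isIntegral_wt (m : ℕ) [NeZero m] (top : Bool) (τ : Ty m) (x : Bool) :
    IsIntegral ℤ (wt m top τ x) := by
  have hi : IsIntegral ℤ (ζ m) := (ζ_prim m).isIntegral (NeZero.pos m)
  have hi' : IsIntegral ℤ (ζ m)⁻¹ := (ζ_prim m).inv.isIntegral (NeZero.pos m)
  rcases τ with b | j
  · simp only [wt]; split_ifs
    · exact isIntegral_zero
    · exact isIntegral_one
  · simp only [wt]; split_ifs
    · exact isIntegral_one
    · refine (IsIntegral.mul ?_ ?_).neg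
      · simp only [tyVal]; split_ifs
        · exact hi.pow _
        · exact isIntegral_one
      · simp only [tyVal]; split_ifs
        · rw [← inv_pow]; exact hi'.pow _
        · rw [inv_one]; exact isIntegral_one

/-- If `wt` does not vanish at `x`, then `x` is the top value or the coordinate is a character. -/
lemma eq_top_or (m : ℕ) (top : Bool) (τ : Ty m) (x : Bool) (h : wt m top τ x ≠ 0) :
    x = topVal top τ ∨ (x = !top ∧ topVal top τ = top) := by
  rcases τ with b | j
  · left
    simp only [wt] at h
    cases x <;> cases b <;> simp_all [topVal]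
  · by_cases hx : x = top
    · left; simp [topVal, hx]
    · right
      refine ⟨?_, rfl⟩
      cases x <;> cases top <;> simp_all

/-- The total weight function. -/
noncomputable def W {n : ℕ} (m : ℕ) (top : Bool) (R : Finset (Fin n)) (σ : Fin n → Ty m)
    (y : Fin n → Bool) (x : Fin n → Bool) : ℂ :=
  ∏ i, if i ∈ R then wt m top (σ i) (x i) else fixWt (y i) (x i)

/-- The top point. -/
def topPt {n m : ℕ} (top : Bool) (R : Finset (Fin n)) (σ : Fin n → Ty m)
    (y : Fin n → Bool) : Fin n → Bool :=
  fun i => if i ∈ R then topVal top (σ i) else y i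

lemma sum_W_mul {n m : ℕ} [NeZero m] (top : Bool) (R : Finset (Fin n)) (σ : Fin n → Ty m)
    (y : Fin n → Bool) (t : Fin n → Ty m) (h : ∃ i ∈ R, t i = σ i) :
    ∑ x : Fin n → Bool, W m top R σ y x * termVal m t x = 0 := by
  classical
  obtain ⟨i, hi, hti⟩ := h
  have h1 : ∀ x : Fin n → Bool, W m top R σ y x * termVal m t x =
      ∏ i, ((if i ∈ R then wt m top (σ i) (x i) else fixWt (y i) (x i)) *
        tyVal m (t i) (x i)) := by
    intro x
    rw [W, termVal, Finset.prod_mul_distrib]
  rw [Finset.sum_congr rfl fun x _ => h1 x]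
  have h2 := Finset.prod_univ_sum (fun _ : Fin n => (Finset.univ : Finset Bool))
    (fun i b => (if i ∈ R then wt m top (σ i) b else fixWt (y i) b) * tyVal m (t i) b)
  rw [Fintype.piFinset_univ] at h2
  rw [← h2]
  refine Finset.prod_eq_zero (Finset.mem_univ i) ?_
  rw [hti, ← sum_wt_mul m top (σ i)]
  exact Finset.sum_congr rfl fun b _ => by rw [if_pos hi]

lemma W_top {n m : ℕ} (top : Bool) (R : Finset (Fin n)) (σ : Fin n → Ty m)
    (y : Fin n → Bool) : W m top R σ y (topPt top R σ y) = 1 := by
  refine Finset.prod_eq_one fun i _ => ?_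
  by_cases hi : i ∈ R
  · simp [topPt, hi, wt_top]
  · simp [topPt, hi, fixWt]

lemma isIntegral_W {n m : ℕ} [NeZero m] (top : Bool) (R : Finset (Fin n)) (σ : Fin n → Ty m)
    (y x : Fin n → Bool) : IsIntegral ℤ (W m top R σ y x) := by
  refine IsIntegral.prod _ fun i _ => ?_
  split_ifs
  · exact isIntegral_wt m top _ _
  · unfold fixWt; split_ifs
    · exact isIntegral_one
    · exact isIntegral_zero

/-- If the weight does not vanish at `x`, then `x` differs from the top point only where the top
point is `top`. -/
lemma W_ne_zero {n m : ℕ} (top : Bool) (R : Finset (Fin n)) (σ : Fin n → Ty m)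
    (y x : Fin n → Bool) (h : W m top R σ y x ≠ 0) (i : Fin n) :
    x i = topPt top R σ y i ∨ (x i = !top ∧ topPt top R σ y i = top) := by
  have h1 := Finset.prod_ne_zero_iff.1 h i (Finset.mem_univ i)
  by_cases hi : i ∈ R
  · rw [if_pos hi] at h1
    simpa [topPt, hi] using eq_top_or m top (σ i) (x i) h1
  · rw [if_neg hi] at h1
    left
    unfold fixWt at h1
    by_contra h2
    apply h1
    rw [if_neg]
    simpa [topPt, hi] using h2

end Pool.Agent.Helper10.ModMaj
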