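import Pool.Agent.Helper10.ModMaj.Defs
import Pool.Agent.Helper10.ModMaj.Terms

/-!
# The value of a gate is a combination of few terms
-/

set_option autoImplicit false

namespace Pool.Agent.Helper10.ModMaj

open Finset

variable {n s : ℕ}

/-- A scalar multiple of a term. -/
def TermLike (m : ℕ) (f : (Fin n → Bool) → ℂ) : Prop :=
  ∃ (c : ℂ) (t : Fin n → Ty m), ∀ x, f x = c * termVal m t x

/-- A scalar multiple of a coordinate function. -/
def TyLike (m : ℕ) (u : Bool → ℂ) : Prop :=
  ∃ (c : ℂ) (τ : Ty m), ∀ b, u b = c * tyVal m τ b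

lemma TyLike.mul {m : ℕ} [NeZero m] {u v : Bool → ℂ} (hu : TyLike m u) (hv : TyLike m v) :
    TyLike m fun b => u b * v b := by
  obtain ⟨c, τ, h⟩ := hu
  obtain ⟨d, ρ, k⟩ := hv
  rcases τ with a | j
  · rcases ρ with a' | j'
    · by_cases haa : a = a'
      · refine ⟨c * d, Sum.inl a, fun b => ?_⟩
        beta_reduce
        rw [h, k, ← haa]
        simp only [tyVal]; split_ifs <;> ring
      · refine ⟨0, Sum.inl a, fun b => ?_⟩
        beta_reduce
        rw [h, k]
        simp only [tyVal]
        cases b <;> cases a <;> cases a' <;> simp_all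
    · refine ⟨c * d * (if a then ζ m ^ j'.val else 1), Sum.inl a, fun b => ?_⟩
      beta_reduce
      rw [h, k]
      simp only [tyVal]
      cases b <;> cases a <;> simp <;> ring
  · rcases ρ with a' | j'
    · refine ⟨c * d * (if a' then ζ m ^ j.val else 1), Sum.inl a', fun b => ?_⟩
      beta_reduce
      rw [h, k]
      simp only [tyVal]
      cases b <;> cases a' <;> simp <;> ring
    · refine ⟨c * d, Sum.inr (j + j'), fun b => ?_⟩
      beta_reduce
      rw [h, k]
      simp only [tyVal]
      have : ζ m ^ (j + j').val = ζ m ^ j.val * ζ m ^ j'.val := by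
        rw [ZMod.val_add, ← pow_add]
        conv_rhs => rw [← Nat.mod_add_div (j.val + j'.val) m, pow_add, pow_mul,
          (ζ_prim m).pow_eq_one, one_pow, mul_one]
      cases b <;> simp [this] <;> ring

lemma tyLike_one (m : ℕ) : TyLike m fun _ => 1 :=
  ⟨1, Sum.inr 0, fun b => by cases b <;> simp [tyVal]⟩

/-- A 0/1 valued function of one variable is like a coordinate function. -/
lemma tyLike_ite (m : ℕ) (p : Bool → Prop) [DecidablePred p] :
    TyLike m fun b => if p b then 1 else 0 := by
  by_cases h1 : p true <;> by_cases h2 : p false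
  · exact ⟨1, Sum.inr 0, fun b => by cases b <;> simp [tyVal, h1, h2]⟩
  · exact ⟨1, Sum.inl true, fun b => by cases b <;> simp [tyVal, h1, h2]⟩
  · exact ⟨1, Sum.inl false, fun b => by cases b <;> simp [tyVal, h1, h2]⟩
  · exact ⟨0, Sum.inl false, fun b => by cases b <;> simp [tyVal, h1, h2]⟩

lemma ζ_pow_eq {m : ℕ} [NeZero m] {a b : ℕ} (h : (a : ZMod m) = (b : ZMod m)) :
    ζ m ^ a = ζ m ^ b := by
  have h1 : a % m = b % m := (ZMod.natCast_eq_natCast_iff a b m).1 h
  rw [← Nat.mod_add_div a m, ← Nat.mod_add_div b m, pow_add, pow_add, pow_mul, pow_mul,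
    (ζ_prim m).pow_eq_one, one_pow, one_pow, h1]

lemma tyLike_pow (m : ℕ) [NeZero m] (a : Bool → ℕ) : TyLike m fun b => ζ m ^ a b := by
  refine ⟨ζ m ^ a false, Sum.inr ((a true : ZMod m) - (a false : ZMod m)), fun b => ?_⟩
  cases b
  · simp [tyVal]
  · simp only [tyVal, if_true]
    rw [← pow_add]
    refine ζ_pow_eq ?_
    push_cast
    rw [ZMod.natCast_val, ZMod.cast_id', id]
    ring

lemma TermLike.of_prod {m : ℕ} {u : Fin n → Bool → ℂ} (h : ∀ i, TyLike m (u i)) :
    TermLike m fun x : Fin n → Bool => ∏ i, u i (x i) := by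
  choose c τ hc using h
  refine ⟨∏ i, c i, τ, fun x => ?_⟩
  rw [termVal, ← Finset.prod_mul_distrib]
  exact Finset.prod_congr rfl fun i _ => hc i (x i)

lemma TermLike.mul {m : ℕ} [NeZero m] {f g : (Fin n → Bool) → ℂ} (hf : TermLike m f)
    (hg : TermLike m g) : TermLike m fun x => f x * g x := by
  obtain ⟨c, t, h⟩ := hf
  obtain ⟨d, t', k⟩ := hg
  have : TermLike m fun x : Fin n → Bool => ∏ i, (tyVal m (t i) (x i) * tyVal m (t' i) (x i)) :=
    TermLike.of_prod (u := fun i b => tyVal m (t i) b * tyVal m (t' i) b) fun i =>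
      TyLike.mul ⟨1, t i, fun b => by rw [one_mul]⟩ ⟨1, t' i, fun b => by rw [one_mul]⟩
  obtain ⟨e, t'', l⟩ := this
  refine ⟨c * d * e, t'', fun x => ?_⟩
  beta_reduce
  rw [h, k, mul_assoc (c * d), ← l]
  beta_reduce
  rw [Finset.prod_mul_distrib]
  simp only [termVal]
  ring

lemma termLike_one (m : ℕ) : TermLike m fun _ : Fin n → Bool => (1 : ℂ) := by
  have := TermLike.of_prod (n := n) (m := m) (u := fun _ _ => 1) fun i => tyLike_one m
  simpa using this

lemma TermLike.prod {m : ℕ} [NeZero m] {ι : Type*} (D : Finset ι)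
    {f : ι → (Fin n → Bool) → ℂ} (h : ∀ i ∈ D, TermLike m (f i)) :
    TermLike m fun x => ∏ i ∈ D, f i x := by
  classical
  induction D using Finset.induction_on with
  | empty => simpa using termLike_one m
  | insert a D ha ih =>
    have h1 := (h a (Finset.mem_insert_self _ _)).mul
      (ih fun i hi => h i (Finset.mem_insert_of_mem hi))
    simpa [Finset.prod_insert ha] using h1

/-- The literals read by an AND gate are all true. -/
lemma termLike_falses (m : ℕ) (a : Fin n → Bool → ℕ) :
    TermLike m fun x : Fin n → Bool => if ∑ i, a i (x i) = 0 then (1 : ℂ) else 0 := by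
  have h := TermLike.of_prod (n := n) (m := m)
    (u := fun i b => if a i b = 0 then (1 : ℂ) else 0) fun i => tyLike_ite m fun b => a i b = 0
  convert h using 2 with x
  rw [Finset.prod_ite_zero]
  simp only [Finset.prod_const_one, Finset.sum_eq_zero_iff, Finset.mem_univ, true_implies]

lemma termLike_pow (m : ℕ) [NeZero m] (k : ℕ) (a : Fin n → Bool → ℕ) :
    TermLike m fun x : Fin n → Bool => ζ m ^ (k * ∑ i, a i (x i)) := by
  have h := TermLike.of_prod (n := n) (m := m)
    (u := fun i b => ζ m ^ (k * a i b)) fun i => tyLike_pow m fun b => k * a i b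
  convert h using 2 with x
  rw [Finset.mul_sum, Finset.prod_pow_eq_pow_sum]

/-- The basic functions of a gate. -/
noncomputable def base (C : Circuit n s) (m : ℕ) (g : Fin s) (j : ZMod m)
    (x : Fin n → Bool) : ℂ :=
  match C.kind g with
  | Kind.and => if j = 0 then 1 else if ∑ i, C.lit g i (!x i) = 0 then 1 else 0
  | Kind.or => if j = 0 then 1 else if ∑ i, C.lit g i (x i) = 0 then 1 else 0
  | Kind.mod => ζ m ^ (j.val * ∑ i, C.lit g i (x i))

lemma termLike_base (C : Circuit n s) (m : ℕ) [NeZero m] (g : Fin s) (j : ZMod m) :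
    TermLike m (base C m g j) := by
  unfold base
  cases hk : C.kind g
  · by_cases hj : j = 0
    · simp only [hj, if_true]; exact termLike_one m
    · simp only [hj, if_false]
      exact termLike_falses m fun i b => C.lit g i (!b)
  · by_cases hj : j = 0
    · simp only [hj, if_true]; exact termLike_one m
    · simp only [hj, if_false]
      exact termLike_falses m fun i b => C.lit g i b
  · exact termLike_pow m j.val fun i b => C.lit g i b

/-- The indicator that `m` divides a number, by roots of unity. -/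
lemma indicator_dvd (m : ℕ) [NeZero m] (N : ℕ) :
    (if m ∣ N then (1 : ℂ) else 0) = (m : ℂ)⁻¹ * ∑ j : ZMod m, ζ m ^ (j.val * N) := by
  have hm : (m : ℂ) ≠ 0 := Nat.cast_ne_zero.2 (NeZero.ne m)
  have hsum : ∑ j : ZMod m, ζ m ^ (j.val * N) = ∑ k ∈ Finset.range m, (ζ m ^ N) ^ k := by
    rw [← Fin.sum_univ_eq_sum_range (fun k => (ζ m ^ N) ^ k)]
    obtain ⟨k, rfl⟩ : ∃ k, m = k + 1 := ⟨m - 1, by have := NeZero.pos m; omega⟩
    refine Finset.sum_congr rfl fun j _ => ?_
    rw [← pow_mul, mul_comm]
    rfl
  rw [hsum]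
  by_cases h : m ∣ N
  · rw [if_pos h]
    obtain ⟨k, rfl⟩ := h
    rw [pow_mul, (ζ_prim m).pow_eq_one, one_pow]
    simp [hm]
  · rw [if_neg h]
    have hne : ζ m ^ N ≠ 1 := fun h1 => h ((ζ_prim m).dvd_of_pow_eq_one N h1)
    have hgeom := geom_sum_mul (ζ m ^ N) m
    rw [← pow_mul, mul_comm N m, pow_mul, (ζ_prim m).pow_eq_one, one_pow, sub_self] at hgeom
    rcases mul_eq_zero.1 hgeom with h2 | h2
    · rw [h2, mul_zero]
    · exact absurd (sub_eq_zero.1 h2) hne

open Classical in
/-- The indicator that gate `g` computes `u g` from `x` and `u`. -/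
lemma indicator_gate (C : Circuit n s) (m : ℕ) (hm : 2 ≤ m) [NeZero m] (g : Fin s)
    (u : Fin s → Bool) :
    ∃ c : ZMod m → ℂ, ∀ x : Fin n → Bool,
      (if (u g = true ↔ C.Fires m g x u) then (1 : ℂ) else 0) =
        ∑ j, c j * base C m g j x := by
  have : Fact (1 < m) := ⟨hm⟩
  have hone : (1 : ZMod m) ≠ 0 := one_ne_zero
  -- it is enough to represent the indicator that the gate fires
  have key : ∃ c : ZMod m → ℂ, ∀ x : Fin n → Bool,
      (if C.Fires m g x u then (1 : ℂ) else 0) = ∑ j, c j * base C m g j x := by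
    have two : ∀ (a b : ℂ) (x : Fin n → Bool), ∑ j : ZMod m,
        (if j = 0 then a else if j = 1 then b else 0) * base C m g j x =
          a * base C m g 0 x + b * base C m g 1 x := by
      intro a b x
      rw [← Finset.add_sum_erase _ _ (Finset.mem_univ (0 : ZMod m)),
        ← Finset.add_sum_erase _ _ (Finset.mem_erase.2 ⟨hone, Finset.mem_univ (1 : ZMod m)⟩),
        Finset.sum_eq_zero]
      · simp [hone]
      · intro j hj
        simp only [Finset.mem_erase, Finset.mem_univ, and_true] at hj
        simp [hj.1, hj.2]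
    cases hk : C.kind g
    · -- AND
      by_cases hw : ∑ h, C.wire g h (!u h) = 0
      · refine ⟨fun j => if j = 0 then 0 else if j = 1 then 1 else 0, fun x => ?_⟩
        rw [two]
        simp [Circuit.Fires, hk, Circuit.falses, hw, base]
      · refine ⟨fun j => if j = 0 then 0 else if j = 1 then 0 else 0, fun x => ?_⟩
        rw [two]
        simp [Circuit.Fires, hk, Circuit.falses, hw, base]
    · -- OR
      by_cases hw : ∑ h, C.wire g h (u h) = 0
      · refine ⟨fun j => if j = 0 then 1 else if j = 1 then -1 else 0, fun x => ?_⟩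
        rw [two]
        by_cases hx : ∑ i, C.lit g i (x i) = 0
        · simp only [Circuit.Fires, hk, Circuit.trues, hw, hx, base]
          simp
        · simp only [Circuit.Fires, hk, Circuit.trues, hw, base]
          simp [hx]
      · refine ⟨fun j => if j = 0 then 1 else if j = 1 then 0 else 0, fun x => ?_⟩
        rw [two]
        have : ∑ i, C.lit g i (x i) + ∑ h, C.wire g h (u h) ≠ 0 := by omega
        have hf : C.Fires m g x u := by simp only [Circuit.Fires, hk, Circuit.trues]; exact this
        rw [if_pos hf]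
        simp [hk, base]
    · -- MOD
      refine ⟨fun j => (if j = 0 then 1 else 0) -
        (m : ℂ)⁻¹ * ζ m ^ (j.val * ∑ h, C.wire g h (u h)), fun x => ?_⟩
      have h1 : (if C.Fires m g x u then (1 : ℂ) else 0) =
          1 - (if m ∣ C.trues g x u then (1 : ℂ) else 0) := by
        simp only [Circuit.Fires, hk]
        by_cases hd : m ∣ C.trues g x u <;> simp [hd]
      rw [h1, indicator_dvd]
      simp only [sub_mul, Finset.sum_sub_distrib]
      congr 1
      · simp [base, hk]
      · rw [Finset.mul_sum]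
        refine Finset.sum_congr rfl fun j _ => ?_
        simp only [base, hk, Circuit.trues]
        rw [mul_add, pow_add]
        ring
  obtain ⟨c, hc⟩ := key
  cases hu : u g
  · refine ⟨fun j => (if j = 0 then 1 else 0) - c j, fun x => ?_⟩
    have hb0 : base C m g 0 x = 1 := by
      unfold base
      cases C.kind g <;> simp
    simp only [sub_mul, Finset.sum_sub_distrib, ← hc]
    simp only [ite_mul, one_mul, zero_mul, Finset.sum_ite_eq', Finset.mem_univ, if_true, hb0]
    by_cases hf : C.Fires m g x u <;> simp [hf]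
  · refine ⟨c, fun x => ?_⟩
    rw [← hc]
    by_cases hf : C.Fires m g x u <;> simp [hf]

end Pool.Agent.Helper10.ModMaj
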